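import Pool.Agent.H12.Heat.AC
import Pool.Agent.H13.Heat.GBa
import Pool.Agent.H31.Heat.A2
import Pool.Agent.H91.Heat.A1

/-!
Module A4 of project HEAT: log-Lipschitz regularisation of a density.
-/

namespace Pool.Agent.H12.Heat

open MeasureTheory ProbabilityTheory Pool.Agent.H58.Heat

/-- Lemma A, with module A3 as a hypothesis -/
theorem A4_of {n : ℕ}
    (hA3 : ∀ (F : E n → ℝ) (_ : ContDiff ℝ 1 F) (_ : EG F) (_ : EG (fderiv ℝ F))
      (_ : ∫ x, F x ^ 2 ∂gm n = 1) (L : ℝ) (_ : 0 ≤ L) (g : E n → ℝ)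
      (_ : KKT ((gm n).withDensity (fun x => ENNReal.ofReal (F x ^ 2))) L g),
      ∫ x, ‖fderiv ℝ g x‖ ^ 2 * Real.exp (g x) ∂gm n ≤
        2 * Real.sqrt ((∫ x, ‖fderiv ℝ F x‖ ^ 2 ∂gm n) *
          ∫ x, ‖fderiv ℝ g x‖ ^ 2 * F x ^ 2 ∂gm n))
    (F : E n → ℝ) (hF : ContDiff ℝ 1 F) (h0 : EG F) (h1 : EG (fderiv ℝ F))
    (hn : ∫ x, F x ^ 2 ∂gm n = 1) (L : ℝ) (hL : 0 < L) :
    ∃ g : E n → ℝ, ContDiff ℝ 1 g ∧ (∀ x, ‖fderiv ℝ g x‖ ≤ L) ∧
      ∫ x, Real.exp (g x) ∂gm n ≤ Real.exp 2 ∧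
      1 - 4 * (∫ x, ‖fderiv ℝ F x‖ ^ 2 ∂gm n) / L ^ 2 ≤
        ∫ x, (if F x ^ 2 ≤ Real.exp (g x) then F x ^ 2 else 0) ∂gm n := by
  have hFc : Continuous F := hF.continuous
  have hF2int : Integrable (fun x => F x ^ 2) (gm n) :=
    Pool.Agent.H13.Heat.GB1 _ (by fun_prop : Continuous fun x => F x ^ 2).aestronglyMeasurable (h0.pow 2)
  have hmF : Measurable fun x => ENNReal.ofReal (F x ^ 2) := by fun_prop
  have hltF : ∀ᵐ x ∂gm n, ENNReal.ofReal (F x ^ 2) < ⊤ :=
    Filter.Eventually.of_forall fun x => ENNReal.ofReal_lt_top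
  set ρ : Measure (E n) := (gm n).withDensity (fun x => ENNReal.ofReal (F x ^ 2)) with hρdef
  have hprob : IsProbabilityMeasure ρ := ⟨by
    rw [hρdef, withDensity_apply _ MeasurableSet.univ, Measure.restrict_univ,
      ← ofReal_integral_eq_lintegral_ofReal hF2int
        (Filter.Eventually.of_forall fun x => sq_nonneg _), hn, ENNReal.ofReal_one]⟩
  have hρint : Integrable (fun x => ‖x‖) ρ := by
    rw [hρdef, integrable_withDensity_iff hmF hltF]
    have hc : Continuous fun x : E n => ‖x‖ * (ENNReal.ofReal (F x ^ 2)).toReal := by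
      simp_rw [ENNReal.toReal_ofReal (sq_nonneg _)]
      fun_prop
    refine Pool.Agent.H13.Heat.GB1 _ hc.aestronglyMeasurable ?_
    simp_rw [ENNReal.toReal_ofReal (sq_nonneg _)]
    exact EG.id_norm.mul (h0.pow 2)
  obtain ⟨g, hg⟩ := Pool.Agent.H91.Heat.A1 ρ hρint L hL.le
  obtain ⟨hρU, hμU⟩ := Pool.Agent.H31.Heat.A2 ρ hρint L hL.le g hg
  have h3 := hA3 F hF h0 h1 hn L hL.le g hg
  obtain ⟨hlip, hg1, -⟩ := hg
  have hgc : Continuous g := hlip.continuous
  have hexpint : Integrable (fun x => Real.exp (g x)) (gm n) :=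
    Pool.Agent.H13.Heat.GB1 _ (by fun_prop : Continuous fun x => Real.exp (g x)).aestronglyMeasurable
      (by simpa using hlip.eg_exp 1)
  have hme : Measurable fun x => ENNReal.ofReal (Real.exp (g x)) := by fun_prop
  have hlte : ∀ᵐ x ∂gm n, ENNReal.ofReal (Real.exp (g x)) < ⊤ :=
    Filter.Eventually.of_forall fun x => ENNReal.ofReal_lt_top
  set μ : Measure (E n) := (gm n).withDensity (fun x => ENNReal.ofReal (Real.exp (g x))) with hμdef
  have hprobμ : IsProbabilityMeasure μ := ⟨by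
    rw [hμdef, withDensity_apply _ MeasurableSet.univ, Measure.restrict_univ,
      ← ofReal_integral_eq_lintegral_ofReal hexpint
        (Filter.Eventually.of_forall fun x => (Real.exp_pos _).le), hg1, ENNReal.ofReal_one]⟩
  have hGn : ∀ x, ‖fderiv ℝ g x‖ ≤ L := norm_fderiv_le hL.le hlip
  have hdm : Measurable fun x => ‖fderiv ℝ g x‖ := (measurable_fderiv ℝ g).norm
  have hUm : MeasurableSet (Un L g) :=
    (measurableSet_of_differentiableAt ℝ g).inter (measurableSet_lt hdm measurable_const)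
  have hae : ∀ᵐ x ∂gm n, x ∉ Un L g → ‖fderiv ℝ g x‖ = L := by
    filter_upwards [ae_diff hL.le hlip] with x hx hxU
    by_contra hne
    exact hxU ⟨hx, lt_of_le_of_ne (hGn x) hne⟩
  -- the function L^2 - |grad g|^2
  let φ : E n → ℝ := fun x => L ^ 2 - ‖fderiv ℝ g x‖ ^ 2
  have hφm : Measurable φ := measurable_const.sub (hdm.pow_const 2)
  have hφ0 : ∀ x, 0 ≤ φ x := fun x => by
    have := hGn x
    have h2 := norm_nonneg (fderiv ℝ g x)
    show 0 ≤ L ^ 2 - ‖fderiv ℝ g x‖ ^ 2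
    nlinarith
  have hφL : ∀ x, φ x ≤ L ^ 2 := fun x => by
    show L ^ 2 - ‖fderiv ℝ g x‖ ^ 2 ≤ L ^ 2
    nlinarith [sq_nonneg ‖fderiv ℝ g x‖]
  have hφint : ∀ (ν : Measure (E n)) [IsFiniteMeasure ν], Integrable φ ν := fun ν _ =>
    Integrable.of_bound hφm.aestronglyMeasurable (L ^ 2) (Filter.Eventually.of_forall fun x => by
      rw [Real.norm_of_nonneg (hφ0 x)]; exact hφL x)
  have hsqint : ∀ (ν : Measure (E n)) [IsFiniteMeasure ν],
      Integrable (fun x => ‖fderiv ℝ g x‖ ^ 2) ν := fun ν _ =>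
    Integrable.of_bound (hdm.pow_const 2).aestronglyMeasurable (L ^ 2)
      (Filter.Eventually.of_forall fun x => by
        rw [Real.norm_of_nonneg (sq_nonneg _)]
        have := hφ0 x
        show ‖fderiv ℝ g x‖ ^ 2 ≤ L ^ 2
        have h4 : 0 ≤ L ^ 2 - ‖fderiv ℝ g x‖ ^ 2 := this
        linarith)
  have hstep : ∫ x, φ x ∂μ ≤ ∫ x, φ x ∂ρ := by
    have hμae : ∀ᵐ x ∂μ, x ∉ Un L g → φ x = 0 := by
      refine (withDensity_absolutelyContinuous (gm n) _).ae_le ?_
      filter_upwards [hae] with x hx hxU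
      show L ^ 2 - ‖fderiv ℝ g x‖ ^ 2 = 0
      rw [hx hxU, sub_self]
    rw [← setIntegral_eq_integral_of_ae_compl_eq_zero hμae]
    exact integral_mono_measure hμU (Filter.Eventually.of_forall hφ0) (hφint ρ)
  have hφμ : ∫ x, φ x ∂μ = L ^ 2 - ∫ x, ‖fderiv ℝ g x‖ ^ 2 * Real.exp (g x) ∂gm n := by
    have e1 : ∫ x, ‖fderiv ℝ g x‖ ^ 2 ∂μ = ∫ x, ‖fderiv ℝ g x‖ ^ 2 * Real.exp (g x) ∂gm n := by
      rw [hμdef, integral_withDensity_eq_integral_toReal_smul hme hlte]
      refine integral_congr_ae (Filter.Eventually.of_forall fun x => ?_)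
      simp only [smul_eq_mul]
      rw [ENNReal.toReal_ofReal (Real.exp_pos _).le, mul_comm]
    show ∫ x, (L ^ 2 - ‖fderiv ℝ g x‖ ^ 2) ∂μ = _
    rw [integral_sub (integrable_const _) (hsqint μ), e1, integral_const]
    simp
  have hφρ : ∫ x, φ x ∂ρ = L ^ 2 - ∫ x, ‖fderiv ℝ g x‖ ^ 2 * F x ^ 2 ∂gm n := by
    have e1 : ∫ x, ‖fderiv ℝ g x‖ ^ 2 ∂ρ = ∫ x, ‖fderiv ℝ g x‖ ^ 2 * F x ^ 2 ∂gm n := by
      rw [hρdef, integral_withDensity_eq_integral_toReal_smul hmF hltF]
      refine integral_congr_ae (Filter.Eventually.of_forall fun x => ?_)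
      simp only [smul_eq_mul]
      rw [ENNReal.toReal_ofReal (sq_nonneg _), mul_comm]
    show ∫ x, (L ^ 2 - ‖fderiv ℝ g x‖ ^ 2) ∂ρ = _
    rw [integral_sub (integrable_const _) (hsqint ρ), e1, integral_const]
    simp
  set κ : ℝ := ∫ x, ‖fderiv ℝ F x‖ ^ 2 ∂gm n with hκ
  set A : ℝ := ∫ x, ‖fderiv ℝ g x‖ ^ 2 * F x ^ 2 ∂gm n with hA
  have hκ0 : 0 ≤ κ := integral_nonneg fun x => sq_nonneg _
  have hA0 : 0 ≤ A := integral_nonneg fun x => by positivity
  have hA1 : A ≤ 2 * Real.sqrt (κ * A) := by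
    have : A ≤ ∫ x, ‖fderiv ℝ g x‖ ^ 2 * Real.exp (g x) ∂gm n := by linarith
    exact this.trans h3
  have hA4 : A ≤ 4 * κ := by
    rcases hA0.eq_or_lt with h | h
    · rw [← h]; positivity
    · have hs : A ^ 2 ≤ 4 * (κ * A) := by
        have h5 : (2 * Real.sqrt (κ * A)) ^ 2 = 4 * (κ * A) := by
          rw [mul_pow, Real.sq_sqrt (mul_nonneg hκ0 hA0)]; norm_num
        rw [← h5]
        exact pow_le_pow_left₀ hA0 hA1 2
      have : A * A ≤ (4 * κ) * A := by nlinarith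
      exact le_of_mul_le_mul_right this h
  -- F^2 <= e^g on U
  have hFg : ∀ᵐ x ∂gm n, x ∈ Un L g → F x ^ 2 ≤ Real.exp (g x) := by
    have hle : (Un L g).indicator (fun x => ENNReal.ofReal (F x ^ 2)) ≤ᵐ[gm n]
        fun x => ENNReal.ofReal (Real.exp (g x)) := by
      refine ae_le_of_forall_setLIntegral_le_of_sigmaFinite (hmF.indicator hUm) ?_
      intro s hs _
      have h6 := Measure.le_iff.mp hρU s hs
      rw [Measure.restrict_apply hs, hρdef, hμdef, withDensity_apply _ hs,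
        withDensity_apply _ (hs.inter hUm)] at h6
      rwa [setLIntegral_indicator hUm, Set.inter_comm]
    filter_upwards [hle] with x hx hxU
    rw [Set.indicator_of_mem hxU] at hx
    exact (ENNReal.ofReal_le_ofReal_iff (Real.exp_pos _).le).mp hx
  obtain ⟨G, hG1, hG2, hG3⟩ := mollify hL hlip
  refine ⟨G, hG1, hG2, ?_, ?_⟩
  · have hGint : Integrable (fun x => Real.exp 2 * Real.exp (g x)) (gm n) := hexpint.const_mul _
    calc ∫ x, Real.exp (G x) ∂gm n ≤ ∫ x, Real.exp 2 * Real.exp (g x) ∂gm n := by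
          refine integral_mono_of_nonneg (Filter.Eventually.of_forall fun x =>
            (Real.exp_pos _).le) hGint (Filter.Eventually.of_forall fun x => ?_)
          show Real.exp (G x) ≤ Real.exp 2 * Real.exp (g x)
          rw [← Real.exp_add]
          exact Real.exp_le_exp.mpr (by linarith [(hG3 x).2])
      _ = Real.exp 2 := by rw [integral_const_mul, hg1, mul_one]
  · have hint1 : Integrable (fun x => ‖fderiv ℝ g x‖ ^ 2 * F x ^ 2) (gm n) := by
      refine (hF2int.const_mul (L ^ 2)).mono' ?_ (Filter.Eventually.of_forall fun x => ?_)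
      · exact ((hdm.pow_const 2).aestronglyMeasurable).mul hF2int.aestronglyMeasurable
      · rw [Real.norm_of_nonneg (by positivity)]
        refine mul_le_mul_of_nonneg_right ?_ (sq_nonneg _)
        have h4 : 0 ≤ L ^ 2 - ‖fderiv ℝ g x‖ ^ 2 := hφ0 x
        linarith
    have hint2 : Integrable (fun x => F x ^ 2 - ‖fderiv ℝ g x‖ ^ 2 * F x ^ 2 / L ^ 2) (gm n) :=
      hF2int.sub (hint1.div_const _)
    have hint3 : Integrable (fun x => if F x ^ 2 ≤ Real.exp (G x) then F x ^ 2 else 0) (gm n) := by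
      refine hF2int.mono' ?_ (Filter.Eventually.of_forall fun x => ?_)
      · refine (Measurable.ite ?_ (by fun_prop) measurable_const).aestronglyMeasurable
        exact measurableSet_le (by fun_prop) ((hG1.continuous.rexp).measurable)
      · split_ifs
        · rw [Real.norm_of_nonneg (sq_nonneg _)]
        · rw [norm_zero]; exact sq_nonneg _
    have hval : ∫ x, (F x ^ 2 - ‖fderiv ℝ g x‖ ^ 2 * F x ^ 2 / L ^ 2) ∂gm n = 1 - A / L ^ 2 := by
      rw [integral_sub hF2int (hint1.div_const _), hn, integral_div]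
    calc 1 - 4 * κ / L ^ 2 ≤ 1 - A / L ^ 2 := by
          have : A / L ^ 2 ≤ 4 * κ / L ^ 2 := div_le_div_of_nonneg_right hA4 (by positivity)
          linarith
      _ = ∫ x, (F x ^ 2 - ‖fderiv ℝ g x‖ ^ 2 * F x ^ 2 / L ^ 2) ∂gm n := hval.symm
      _ ≤ _ := by
          refine integral_mono_ae hint2 hint3 ?_
          filter_upwards [hae, hFg] with x hx1 hx2
          by_cases hxU : x ∈ Un L g
          · have h7 := hx2 hxU
            have h8 : F x ^ 2 ≤ Real.exp (G x) :=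
              h7.trans (Real.exp_le_exp.mpr (hG3 x).1)
            rw [if_pos h8]
            have : 0 ≤ ‖fderiv ℝ g x‖ ^ 2 * F x ^ 2 / L ^ 2 := by positivity
            linarith
          · rw [hx1 hxU]
            have h9 : F x ^ 2 - L ^ 2 * F x ^ 2 / L ^ 2 = 0 := by
              field_simp
              ring
            rw [h9]
            split_ifs
            · exact sq_nonneg _
            · exact le_rfl

end Pool.Agent.H12.Heat
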