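import Pool.Agent.H12.Heat.A4
import Pool.Agent.H32.Heat.A3

/-!
Module A4 of project HEAT, unconditional form: log-Lipschitz regularisation of a density.
-/

namespace Pool.Agent.H12.Heat

open MeasureTheory ProbabilityTheory Pool.Agent.H58.Heat

/-- Lemma A -/
theorem A4 {n : ℕ} (F : E n → ℝ) (hF : ContDiff ℝ 1 F) (h0 : EG F) (h1 : EG (fderiv ℝ F))
    (hn : ∫ x, F x ^ 2 ∂gm n = 1) (L : ℝ) (hL : 0 < L) :
    ∃ g : E n → ℝ, ContDiff ℝ 1 g ∧ (∀ x, ‖fderiv ℝ g x‖ ≤ L) ∧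
      ∫ x, Real.exp (g x) ∂gm n ≤ Real.exp 2 ∧
      1 - 4 * (∫ x, ‖fderiv ℝ F x‖ ^ 2 ∂gm n) / L ^ 2 ≤
        ∫ x, (if F x ^ 2 ≤ Real.exp (g x) then F x ^ 2 else 0) ∂gm n :=
  A4_of (fun F hF h0 h1 hn L hL g hg => Pool.Agent.H32.Heat.A3 F hF h0 h1 hn L hL g hg)
    F hF h0 h1 hn L hL

end Pool.Agent.H12.Heat
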