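import Pool.Agent.H58.Heat.EGlib

/-!
Absolute continuity of the Gaussian measure, Rademacher for it, mollification.
-/

namespace Pool.Agent.H12.Heat

open MeasureTheory ProbabilityTheory Pool.Agent.H58.Heat

lemma pi_ac (n : ℕ) : (Measure.pi fun _ : Fin n => gaussianReal 0 1) ≪
    (Measure.pi fun _ : Fin n => (volume : Measure ℝ)) := by
  induction n with
  | zero =>
    rw [Measure.pi_of_empty, Measure.pi_of_empty]
  | succ n ih =>
    have h1 := (measurePreserving_piFinSuccAbove (fun _ : Fin (n + 1) => gaussianReal 0 1) 0).symm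
    have h2 := (measurePreserving_piFinSuccAbove
      (fun _ : Fin (n + 1) => (volume : Measure ℝ)) 0).symm
    rw [← h1.map_eq, ← h2.map_eq]
    exact ((gaussianReal_absolutelyContinuous 0 one_ne_zero).prod ih).map h1.measurable

lemma gm_ac (n : ℕ) : gm n ≪ (volume : Measure (E n)) := by
  have h := (pi_ac n).map (WithLp.measurable_toLp 2 (Fin n → ℝ))
  have h2 := (PiLp.volume_preserving_toLp (Fin n)).map_eq
  rw [volume_pi] at h2
  have h3 : gm n = (Measure.pi fun _ : Fin n => gaussianReal 0 1).map (WithLp.toLp 2) :=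
    map_pi_eq_stdGaussian.symm
  rw [← h2, h3]
  exact h

/-- Rademacher for the Gaussian measure -/
lemma ae_diff {n : ℕ} {L : ℝ} (hL : 0 ≤ L) {g : E n → ℝ} (hg : Lip L g) :
    ∀ᵐ x ∂gm n, DifferentiableAt ℝ g x :=
  (gm_ac n).ae_le (hg.lipschitz hL).ae_differentiableAt

lemma norm_fderiv_le {n : ℕ} {L : ℝ} (hL : 0 ≤ L) {g : E n → ℝ} (hg : Lip L g) (x : E n) :
    ‖fderiv ℝ g x‖ ≤ L := by
  have := norm_fderiv_le_of_lipschitz ℝ (x₀ := x) (hg.lipschitz hL)
  rwa [Real.coe_toNNReal _ hL] at this

/-- mollification of a Lipschitz function from above -/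
lemma mollify {n : ℕ} {L : ℝ} (hL : 0 < L) {g : E n → ℝ} (hg : Lip L g) :
    ∃ G : E n → ℝ, ContDiff ℝ 1 G ∧ (∀ x, ‖fderiv ℝ G x‖ ≤ L) ∧
      ∀ x, g x ≤ G x ∧ G x ≤ g x + 2 := by
  have hLi : 0 < L⁻¹ := inv_pos.mpr hL
  let φ : ContDiffBump (0 : E n) := ⟨L⁻¹ / 2, L⁻¹, by positivity, by linarith⟩
  have hc : Continuous g := hg.continuous
  have hloc : LocallyIntegrable g (volume : Measure (E n)) := hc.locallyIntegrable
  let G0 : E n → ℝ := MeasureTheory.convolution (φ.normed volume) g
    (ContinuousLinearMap.lsmul ℝ ℝ) volume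
  have hsm : ContDiff ℝ 1 G0 :=
    φ.hasCompactSupport_normed.contDiff_convolution_left _ φ.contDiff_normed hloc
  have hclose : ∀ x, |G0 x - g x| ≤ 1 := by
    intro x
    have := φ.dist_normed_convolution_le (μ := volume) (g := g) (x₀ := x) (ε := 1)
      hc.aestronglyMeasurable (by
        intro y hy
        rw [Real.dist_eq]
        refine (hg y x).trans ?_
        rw [Metric.mem_ball, dist_eq_norm] at hy
        have : L * ‖y - x‖ ≤ L * L⁻¹ := mul_le_mul_of_nonneg_left hy.le hL.le
        rwa [mul_inv_cancel₀ hL.ne'] at this)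
    rwa [Real.dist_eq] at this
  have hlip : Lip L G0 := by
    intro x y
    have hint : ∀ x, Integrable (fun t => φ.normed volume t * g (x - t)) volume := by
      intro x
      have hcont : Continuous (fun t => φ.normed volume t * g (x - t)) :=
        φ.continuous_normed.mul (hc.comp (by fun_prop))
      exact hcont.integrable_of_hasCompactSupport φ.hasCompactSupport_normed.mul_right
    have hdef : ∀ x, G0 x = ∫ t, φ.normed volume t * g (x - t) := by
      intro x
      rfl
    rw [hdef x, hdef y, ← integral_sub (hint x) (hint y), ← Real.norm_eq_abs]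
    calc ‖∫ t, (φ.normed volume t * g (x - t) - φ.normed volume t * g (y - t))‖
        ≤ ∫ t, φ.normed volume t * (L * ‖x - y‖) := by
          refine norm_integral_le_of_norm_le (φ.integrable_normed.mul_const _)
            (Filter.Eventually.of_forall fun t => ?_)
          rw [← mul_sub, norm_mul, Real.norm_of_nonneg (φ.nonneg_normed t)]
          refine mul_le_mul_of_nonneg_left ?_ (φ.nonneg_normed t)
          have := hg (x - t) (y - t)
          rw [sub_sub_sub_cancel_right] at this
          exact this
      _ = L * ‖x - y‖ := by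
          rw [integral_mul_const, φ.integral_normed, one_mul]
  refine ⟨fun x => G0 x + 1, hsm.add contDiff_const, fun x => ?_, fun x => ?_⟩
  · have h1 : Lip L (fun x => G0 x + 1) := by
      intro x y
      have := hlip x y
      rwa [add_sub_add_right_eq_sub]
    exact norm_fderiv_le hL.le h1 x
  · have := abs_le.mp (hclose x)
    constructor <;> linarith [this.1, this.2]

end Pool.Agent.H12.Heat
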